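import Mathlib

/-!
# The function of one variable of the ring insertion, second version
-/

open Set Filter Topology
open scoped ContDiff

namespace Pool.Agent.H81.HB

noncomputable section

/-- `OneD`: `G'' = L` on `[c0, S]` up to a steep ramp at `c0` and finitely many narrow negative pulses
near good values; `G` and `G'` small. -/
def S_OneD : Prop :=
  ∀ (L c0 S : ℝ) (D : Set ℝ), 0 < L → 0 < c0 → c0 < S →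
    (∀ a b, c0 ≤ a → a < b → ∃ c ∈ D, a < c ∧ c < b) → ∀ η : ℝ, 0 < η →
    ∃ C : Finset ℝ, (∀ c ∈ C, c ∈ D ∧ c0 < c) ∧
      ∀ κ L1 Λ r : ℝ, 0 < κ → 0 < L1 → 0 < Λ → 0 < r →
        ∃ G G1 G2 G3 : ℝ → ℝ, ContDiff ℝ ∞ G ∧ (∀ s, HasDerivAt G (G1 s) s) ∧
          (∀ s, HasDerivAt G1 (G2 s) s) ∧ (∀ s, HasDerivAt G2 (G3 s) s) ∧
          (∀ s, G (-s) = -G s) ∧ (∀ s, |s| ≤ c0 → G s = 0) ∧
          (∀ s, |s| ≤ S → |G s| ≤ η ∧ |G1 s| ≤ η) ∧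
          ∀ s, c0 ≤ s → s ≤ S →
            (L - κ ≤ G2 s ∧ G2 s ≤ L) ∨ (s ≤ c0 + r ∧ 0 ≤ G2 s ∧ G2 s ≤ κ) ∨
            ((∃ c ∈ C, |s - c| ≤ r) ∧ G2 s ≤ -L1) ∨
            (-L1 ≤ G2 s ∧ G2 s ≤ L ∧ Λ ≤ |G3 s| ∧ (0 ≤ G2 s ∨ ∃ c ∈ C, |s - c| ≤ r))

end

end Pool.Agent.H81.HB
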