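import Mathlib
import Pool.Agent.H30.Hedge.Formula
import Pool.Agent.H81.HB.Stm

/-!
# The geometric part of the ring insertion, second version: statements (stubs GB-*)
-/

open Set Filter Topology
open scoped ContDiff

namespace Pool.Agent.H81.HB

open Pool.Agent.H30.Hedge (H2 H3)

noncomputable section

/-- the data: three functions of class `C^3` near the compact set `K` of the plane, `lam > 0` -/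
structure Data (U K : Set (ℝ × ℝ)) (f F lam : ℝ × ℝ → ℝ) (c0 : ℝ) : Prop where
  hU : IsOpen U
  hK : IsCompact K
  hKU : K ⊆ U
  hf : ContDiffOn ℝ 3 f U
  hF : ContDiffOn ℝ 3 F U
  hl : ContDiffOn ℝ 3 lam U
  lpos : ∀ x ∈ K, 0 < lam x
  hc0 : 0 < c0
  A1 : ∀ x ∈ K, |F x| ≤ c0 → (∃ v, H2 f x v v < 0) ∧ ∃ v, 0 < H2 f x v v
  A2 : ∀ x ∈ K, c0 ≤ F x → ∀ t, t ≠ 0 → fderiv ℝ F x t = 0 → 0 < H2 f x t t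

/-- `CST`: the constants of the positive side (compactness; `L` is Finsler's lemma) -/
def S_CST : Prop :=
  ∀ (U K : Set (ℝ × ℝ)) (f F lam : ℝ × ℝ → ℝ) (c0 : ℝ), Data U K f F lam c0 →
    ∃ L m ν r : ℝ, 0 < L ∧ 0 < m ∧ 0 < ν ∧ 0 < r ∧
      (∀ x ∈ K, c0 ≤ F x → ∀ v, ‖v‖ = 1 → m ≤ H2 f x v v + L * (lam x * (fderiv ℝ F x v) ^ 2)) ∧
      (∀ x ∈ K, c0 ≤ F x → ∀ v, ‖v‖ = 1 → |fderiv ℝ F x v| ≤ ν → m ≤ H2 f x v v) ∧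
      (∀ x ∈ K, c0 ≤ F x → F x ≤ c0 + r → ∃ v, ‖v‖ = 1 ∧ H2 f x v v ≤ -m)

/-- `LEV`: near finitely many regular levels the gradient is bounded below -/
def S_LEV : Prop :=
  ∀ (U K : Set (ℝ × ℝ)) (F : ℝ × ℝ → ℝ), IsOpen U → IsCompact K → K ⊆ U → ContDiffOn ℝ 3 F U →
    ∀ C : Finset ℝ, (∀ c ∈ C, ∀ x ∈ K, F x = c → fderiv ℝ F x ≠ 0) →
      ∃ r g : ℝ, 0 < r ∧ 0 < g ∧ ∀ x ∈ K, (∃ c ∈ C, |F x - c| ≤ r) →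
        ∃ n, ‖n‖ = 1 ∧ g ≤ fderiv ℝ F x n

/-- the perturbed function -/
def gg (f F lam : ℝ × ℝ → ℝ) (G : ℝ → ℝ) (x : ℝ × ℝ) : ℝ := f x + lam x * G (F x)

/-- a smooth function with its first three derivatives -/
structure Tow (G G1 G2 G3 : ℝ → ℝ) : Prop where
  sm : ContDiff ℝ ∞ G
  d0 : ∀ s, HasDerivAt G (G1 s) s
  d1 : ∀ s, HasDerivAt G1 (G2 s) s
  d2 : ∀ s, HasDerivAt G2 (G3 s) s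

/-- `EST`: estimates of the derivatives of `gg` -/
def S_EST : Prop :=
  ∀ (U K : Set (ℝ × ℝ)) (f F lam : ℝ × ℝ → ℝ), IsOpen U → IsCompact K → K ⊆ U →
    ContDiffOn ℝ 3 f U → ContDiffOn ℝ 3 F U → ContDiffOn ℝ 3 lam U →
    ∃ R : ℝ, 1 ≤ R ∧
      (∀ x ∈ K, |lam x| ≤ R ∧ (∀ v, ‖v‖ = 1 → |fderiv ℝ F x v| ≤ R) ∧
        (∀ v, ‖v‖ = 1 → |H2 f x v v| ≤ R)) ∧
      ∀ (G G1 G2 G3 : ℝ → ℝ), Tow G G1 G2 G3 → ∀ η : ℝ, 0 ≤ η → η ≤ 1 → ∀ x ∈ K,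
        |G (F x)| ≤ η → |G1 (F x)| ≤ η →
          (∀ v, ‖v‖ = 1 → |H2 (gg f F lam G) x v v - H2 f x v v -
            lam x * G2 (F x) * (fderiv ℝ F x v) ^ 2| ≤ R * η) ∧
          (∀ v, ‖v‖ = 1 → |H3 (gg f F lam G) x v v v -
            lam x * G3 (F x) * (fderiv ℝ F x v) ^ 3| ≤ R * (1 + |G2 (F x)|))

/-- the properties of the function of one variable on `[c0, S]` -/
def Good (L c0 S κ L1 Λ r : ℝ) (C : Finset ℝ) (G2 G3 : ℝ → ℝ) : Prop :=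
  ∀ s, c0 ≤ s → s ≤ S →
    (L - κ ≤ G2 s ∧ G2 s ≤ L) ∨ (s ≤ c0 + r ∧ 0 ≤ G2 s ∧ G2 s ≤ κ) ∨
    ((∃ c ∈ C, |s - c| ≤ r) ∧ G2 s ≤ -L1) ∨
    (-L1 ≤ G2 s ∧ G2 s ≤ L ∧ Λ ≤ |G3 s| ∧ (0 ≤ G2 s ∨ ∃ c ∈ C, |s - c| ≤ r))

/-- `SIDE`: the positive side. -/
def S_SIDE : Prop :=
  ∀ (U K : Set (ℝ × ℝ)) (f F lam : ℝ × ℝ → ℝ) (c0 : ℝ), Data U K f F lam c0 →
    ∃ L0 : ℝ, 0 < L0 ∧ ∀ L, L0 ≤ L → ∃ η0 : ℝ, 0 < η0 ∧ ∀ C : Finset ℝ,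
      (∀ c ∈ C, ∀ x ∈ K, F x = c → fderiv ℝ F x ≠ 0) →
      ∃ κ0 r0 L10 : ℝ, 0 < κ0 ∧ 0 < r0 ∧ 0 < L10 ∧
        ∀ κ r L1 : ℝ, 0 < κ → κ ≤ κ0 → 0 < r → r ≤ r0 → L10 ≤ L1 →
          ∃ Λ0 : ℝ, 0 < Λ0 ∧ ∀ Λ, Λ0 ≤ Λ → ∀ (S : ℝ) (G G1 G2 G3 : ℝ → ℝ), Tow G G1 G2 G3 →
            (∀ s, |s| ≤ S → |G s| ≤ η0 ∧ |G1 s| ≤ η0) → Good L c0 S κ L1 Λ r C G2 G3 →
            ∀ x ∈ K, c0 ≤ F x → F x ≤ S → ∀ k, k ≠ 0 → (∀ v, H2 (gg f F lam G) x k v = 0) →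
              H3 (gg f F lam G) x k k k ≠ 0 ∧ ∃ v, H2 (gg f F lam G) x v v ≠ 0

/-- `GEO`: the ring insertion, second version -/
def S_GEO : Prop :=
  ∀ (U K : Set (ℝ × ℝ)) (f F lam : ℝ × ℝ → ℝ) (c0 : ℝ), Data U K f F lam c0 →
    (∀ x ∈ K, F x ≤ -c0 → ∀ t, t ≠ 0 → fderiv ℝ F x t = 0 → H2 f x t t < 0) →
    {s : ℝ | ∃ x ∈ K, c0 ≤ |F x| ∧ fderiv ℝ F x = 0 ∧ F x = s}.Finite →
    ∃ G : ℝ → ℝ, ContDiff ℝ ∞ G ∧ (∀ s, G (-s) = -G s) ∧ (∀ s, |s| ≤ c0 → G s = 0) ∧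
      ∀ x ∈ K, ∀ k, k ≠ 0 → (∀ v, H2 (gg f F lam G) x k v = 0) →
        H3 (gg f F lam G) x k k k ≠ 0 ∧ ∃ v, H2 (gg f F lam G) x v v ≠ 0

/-- `MORSE`: nondegenerate critical points are finite in number on a compact set -/
def S_MORSE : Prop :=
  ∀ (U K : Set (ℝ × ℝ)) (F : ℝ × ℝ → ℝ) (c0 : ℝ), IsOpen U → IsCompact K → K ⊆ U →
    ContDiffOn ℝ 3 F U →
    (∀ x ∈ K, c0 ≤ |F x| → fderiv ℝ F x = 0 → ∀ k, k ≠ 0 → ∃ v, H2 F x k v ≠ 0) →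
    {s : ℝ | ∃ x ∈ K, c0 ≤ |F x| ∧ fderiv ℝ F x = 0 ∧ F x = s}.Finite

end

end Pool.Agent.H81.HB
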