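import Mathlib
import Pool.Agent.H30.Hedge.Bump

/-!
# The smooth step
-/

open Set Filter Topology
open scoped ContDiff

namespace Pool.Agent.H81.HB

open Pool.Agent.H30.Hedge (beta beta1 beta_nonneg beta_out beta_contDiff beta1_contDiff
  beta_hasDeriv glue1_pos beta_even)

noncomputable section

/-- total mass of the bump -/
def II : ℝ := Pool.Agent.H30.Hedge.G1 1

lemma beta_pos {x : ℝ} (h : |x| < 1) : 0 < beta x := by
  have : 0 < 1 - x ^ 2 := by
    have h2 : |x| ^ 2 < 1 := by
      have := abs_nonneg x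
      nlinarith
    rw [sq_abs] at h2
    linarith
  exact div_pos (expNegInvGlue.pos_of_pos this) glue1_pos

lemma II_pos : 0 < II := by
  unfold II Pool.Agent.H30.Hedge.G1
  apply intervalIntegral.intervalIntegral_pos_of_pos_on
    (beta_contDiff.continuous.intervalIntegrable _ _) _ (by norm_num)
  intro x hx
  exact beta_pos (abs_lt.2 ⟨hx.1, hx.2⟩)

/-- the smooth step: `0` on `(-∞, -1]`, `1` on `[1, ∞)` -/
def step (x : ℝ) : ℝ := Pool.Agent.H30.Hedge.G1 x / II

lemma step_hasDeriv (x : ℝ) : HasDerivAt step (beta x / II) x :=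
  (Pool.Agent.H30.Hedge.G1_hasDeriv x).div_const II

lemma step_contDiff : ContDiff ℝ ∞ step := Pool.Agent.H30.Hedge.G1_contDiff.div_const _

lemma step_left {x : ℝ} (h : x ≤ -1) : step x = 0 := by
  unfold step; rw [Pool.Agent.H30.Hedge.G1_left h, zero_div]

lemma step_right {x : ℝ} (h : 1 ≤ x) : step x = 1 := by
  unfold step; rw [Pool.Agent.H30.Hedge.G1_right h]; exact div_self II_pos.ne'

lemma step_mono : Monotone step := by
  apply monotone_of_deriv_nonneg (fun x => (step_hasDeriv x).differentiableAt)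
  intro x
  rw [(step_hasDeriv x).deriv]
  exact div_nonneg (beta_nonneg x) II_pos.le

lemma step_nonneg (x : ℝ) : 0 ≤ step x := by
  rcases le_total x (-1) with h | h
  · rw [step_left h]
  · rw [← step_left le_rfl]; exact step_mono h

lemma step_le_one (x : ℝ) : step x ≤ 1 := by
  rcases le_total x 1 with h | h
  · rw [← step_right le_rfl]; exact step_mono h
  · rw [step_right h]

/-- the bump is bounded below on `[-1/2, 1/2]` -/
lemma beta_half : ∃ b : ℝ, 0 < b ∧ ∀ x : ℝ, |x| ≤ 1 / 2 → b ≤ beta x := by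
  obtain ⟨x0, hx0, hmin⟩ := (isCompact_Icc (a := (-(1 / 2) : ℝ)) (b := 1 / 2)).exists_isMinOn
    ⟨0, by norm_num, by norm_num⟩ beta_contDiff.continuous.continuousOn
  refine ⟨beta x0, beta_pos (abs_lt.2 ⟨by linarith [hx0.1], by linarith [hx0.2]⟩), fun x hx => ?_⟩
  exact hmin (abs_le.1 hx)

/-- in the transition zone of the step the bump is bounded below -/
lemma step_mid {θ : ℝ} (hθ : 0 < θ) : ∃ b : ℝ, 0 < b ∧ ∀ x : ℝ, θ ≤ step x → step x ≤ 1 - θ →
    b ≤ beta x := by
  set K : Set ℝ := {x | θ ≤ step x ∧ step x ≤ 1 - θ} with hK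
  have hsub : K ⊆ Icc (-1) 1 := by
    rintro x ⟨h1, h2⟩
    constructor
    · by_contra h
      rw [step_left (not_le.1 h).le] at h1
      linarith
    · by_contra h
      rw [step_right (not_le.1 h).le] at h2
      linarith
  have hcl : IsClosed K :=
    (isClosed_le continuous_const step_contDiff.continuous).inter
      (isClosed_le step_contDiff.continuous continuous_const)
  have hKc : IsCompact K := isCompact_Icc.of_isClosed_subset hcl hsub
  rcases K.eq_empty_or_nonempty with he | hne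
  · refine ⟨1, one_pos, fun x h1 h2 => ?_⟩
    have : x ∈ K := ⟨h1, h2⟩
    rw [he] at this
    exact this.elim
  · obtain ⟨x0, hx0, hmin⟩ := hKc.exists_isMinOn hne beta_contDiff.continuous.continuousOn
    refine ⟨beta x0, beta_pos ?_, fun x h1 h2 => hmin ⟨h1, h2⟩⟩
    rw [abs_lt]
    constructor
    · by_contra h
      have h1 := hx0.1
      rw [step_left (not_lt.1 h)] at h1
      linarith
    · by_contra h
      have h1 := hx0.2
      rw [step_right (not_lt.1 h)] at h1
      linarith

/-- the slope of the bump dominates the bump outside `[-1/2, 1/2]` -/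
lemma beta1_ge {x : ℝ} (hx : 1 / 2 ≤ |x|) : beta x ≤ |beta1 x| := by
  rcases le_or_gt 1 |x| with h | h
  · rw [beta_out h]; exact abs_nonneg _
  have hx2 : x ^ 2 < 1 := by
    have : |x| ^ 2 < 1 := by nlinarith [abs_nonneg x]
    rwa [sq_abs] at this
  have hpos : 0 < 1 - x ^ 2 := by linarith
  have hev : beta =ᶠ[𝓝 x] fun y => Real.exp (-(1 - y ^ 2)⁻¹) / expNegInvGlue 1 := by
    have : ∀ᶠ y in 𝓝 x, 0 < 1 - y ^ 2 :=
      (continuousAt_const.sub (continuousAt_id.pow 2)).eventually (lt_mem_nhds hpos)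
    filter_upwards [this] with y hy
    simp [beta, expNegInvGlue, not_le.2 hy]
  have hd : HasDerivAt (fun y : ℝ => Real.exp (-(1 - y ^ 2)⁻¹) / expNegInvGlue 1)
      (Real.exp (-(1 - x ^ 2)⁻¹) * (-(-(-(2 * x)) / (1 - x ^ 2) ^ 2)) / expNegInvGlue 1) x := by
    have h1 : HasDerivAt (fun y : ℝ => 1 - y ^ 2) (-(2 * x)) x := by
      have := (hasDerivAt_pow 2 x).const_sub 1
      simpa using this
    have h2 := (h1.inv hpos.ne').neg
    have h3 := (h2.exp).div_const (expNegInvGlue 1)
    exact h3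
  have e1 : beta1 x = _ := (hd.congr_of_eventuallyEq hev).deriv
  have e2 : beta x = Real.exp (-(1 - x ^ 2)⁻¹) / expNegInvGlue 1 := by
    simp [beta, expNegInvGlue, not_le.2 hpos]
  have e3 : beta1 x = -(beta x * (2 * x / (1 - x ^ 2) ^ 2)) := by
    rw [e1, e2]
    have := glue1_pos.ne'
    field_simp
  rw [e3, abs_neg, abs_mul, abs_of_nonneg (beta_nonneg x)]
  have h4 : 1 ≤ |2 * x / (1 - x ^ 2) ^ 2| := by
    rw [abs_div, abs_mul, abs_of_pos (show (0 : ℝ) < 2 by norm_num),
      abs_of_pos (show (0 : ℝ) < (1 - x ^ 2) ^ 2 by positivity)]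
    rw [le_div_iff₀ (by positivity)]
    have h5 : (1 - x ^ 2) ^ 2 ≤ 1 := by nlinarith [sq_nonneg x]
    linarith
  calc beta x = beta x * 1 := (mul_one _).symm
    _ ≤ _ := mul_le_mul_of_nonneg_left h4 (beta_nonneg x)

end

end Pool.Agent.H81.HB
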