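import Mathlib
import Pool.Agent.H81.HB.Stm
import Pool.Agent.H81.HB.Step

/-!
# The function of one variable
-/

open Set Filter Topology
open scoped ContDiff

namespace Pool.Agent.H81.HB

open Pool.Agent.H30.Hedge (beta beta1 beta_nonneg beta_out beta_contDiff beta1_contDiff
  beta_hasDeriv glue1_pos beta_even contDiff_of_hasDeriv beta1_out)

noncomputable section

/-- sum of small steps -/
def TT (c : ℕ → ℝ) (ε : ℝ) (n : ℕ) (s : ℝ) : ℝ :=
  ∑ j ∈ Finset.range n, (c (j + 1) - c j) * step ((s - c (j + 1)) / ε)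

def TT1 (c : ℕ → ℝ) (ε : ℝ) (n : ℕ) (s : ℝ) : ℝ :=
  ∑ j ∈ Finset.range n, (c (j + 1) - c j) * (beta ((s - c (j + 1)) / ε) / II * (1 / ε))

def TT2 (c : ℕ → ℝ) (ε : ℝ) (n : ℕ) (s : ℝ) : ℝ :=
  ∑ j ∈ Finset.range n, (c (j + 1) - c j) * (beta1 ((s - c (j + 1)) / ε) / II * (1 / ε) * (1 / ε))

lemma arg_hasDeriv (a ε s : ℝ) : HasDerivAt (fun s => (s - a) / ε) (1 / ε) s :=
  ((hasDerivAt_id s).sub_const a).div_const ε

lemma TT_hasDeriv (c : ℕ → ℝ) (ε : ℝ) (n : ℕ) (s : ℝ) :
    HasDerivAt (TT c ε n) (TT1 c ε n s) s := by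
  unfold TT TT1
  apply HasDerivAt.fun_sum
  intro j _
  exact ((step_hasDeriv _).comp s (arg_hasDeriv _ ε s)).const_mul _

lemma TT1_hasDeriv (c : ℕ → ℝ) (ε : ℝ) (n : ℕ) (s : ℝ) :
    HasDerivAt (TT1 c ε n) (TT2 c ε n s) s := by
  unfold TT1 TT2
  apply HasDerivAt.fun_sum
  intro j _
  have h := ((((beta_hasDeriv _).comp s (arg_hasDeriv (c (j + 1)) ε s)).div_const II).mul_const
    (1 / ε)).const_mul (c (j + 1) - c j)
  refine h.congr_deriv ?_
  ring

lemma TT2_contDiff (c : ℕ → ℝ) (ε : ℝ) (n : ℕ) : ContDiff ℝ ∞ (TT2 c ε n) := by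
  unfold TT2
  apply ContDiff.sum
  intro j _
  have h1 : ContDiff ℝ ∞ (fun s : ℝ => (s - c (j + 1)) / ε) :=
    (contDiff_id.sub contDiff_const).div_const ε
  exact contDiff_const.mul ((((beta1_contDiff.comp h1).div_const II).mul contDiff_const).mul
    contDiff_const)

lemma TT1_contDiff (c : ℕ → ℝ) (ε : ℝ) (n : ℕ) : ContDiff ℝ ∞ (TT1 c ε n) :=
  contDiff_of_hasDeriv (TT1_hasDeriv c ε n) (TT2_contDiff c ε n)

lemma TT_contDiff (c : ℕ → ℝ) (ε : ℝ) (n : ℕ) : ContDiff ℝ ∞ (TT c ε n) :=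
  contDiff_of_hasDeriv (TT_hasDeriv c ε n) (TT1_contDiff c ε n)

lemma TT_succ (c : ℕ → ℝ) (ε : ℝ) (n : ℕ) (s : ℝ) :
    TT c ε (n + 1) s = TT c ε n s + (c (n + 1) - c n) * step ((s - c (n + 1)) / ε) := by
  unfold TT
  rw [Finset.sum_range_succ]

lemma st0 {ε a s : ℝ} (hε : 0 < ε) (h : s + ε ≤ a) : step ((s - a) / ε) = 0 := by
  apply step_left
  rw [div_le_iff₀ hε]
  linarith

lemma st1 {ε a s : ℝ} (hε : 0 < ε) (h : a + ε ≤ s) : step ((s - a) / ε) = 1 := by
  apply step_right
  rw [le_div_iff₀ hε]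
  linarith

section bounds

variable {c : ℕ → ℝ} {ε η : ℝ} (hε : 0 < ε) (hm : ∀ j, c j ≤ c (j + 1))
include hε hm

lemma TT_upper {s : ℝ} (hs : c 0 ≤ s) (n : ℕ) : TT c ε n s ≤ s + ε - c 0 ∧ TT c ε n s ≤ c n - c 0 := by
  induction n with
  | zero => simp [TT]; linarith
  | succ n ih =>
    rw [TT_succ]
    have h0 := step_nonneg ((s - c (n + 1)) / ε)
    have h1 := step_le_one ((s - c (n + 1)) / ε)
    have hd := sub_nonneg.2 (hm n)
    have h2 : (c (n + 1) - c n) * step ((s - c (n + 1)) / ε) ≤ c (n + 1) - c n := by nlinarith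
    refine ⟨?_, by linarith [ih.2]⟩
    rcases le_total (s + ε) (c (n + 1)) with h | h
    · rw [st0 hε h]
      linarith [ih.1]
    · linarith [ih.2]

lemma TT_eq {s : ℝ} (n : ℕ) (hs : c n + ε ≤ s) : TT c ε n s = c n - c 0 := by
  induction n with
  | zero => simp [TT]
  | succ n ih =>
    rw [TT_succ, st1 hε hs, ih (by linarith [hm n])]
    ring

lemma TT_lower {s : ℝ} (hη : 0 ≤ η) (h' : ∀ j, c (j + 1) ≤ c j + η) (n : ℕ) :
    min (s - ε) (c n) - c 0 - η ≤ TT c ε n s := by
  induction n with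
  | zero =>
    have : min (s - ε) (c 0) ≤ c 0 := min_le_right _ _
    have h0 : TT c ε 0 s = 0 := by simp [TT]
    rw [h0]
    linarith
  | succ n ih =>
    rw [TT_succ]
    have h0 := step_nonneg ((s - c (n + 1)) / ε)
    have hd := sub_nonneg.2 (hm n)
    rcases le_total (c (n + 1) + ε) s with h | h
    · rw [st1 hε h, min_eq_right (by linarith)]
      rw [min_eq_right (by linarith [hm n])] at ih
      linarith
    · rw [min_eq_left (by linarith)]
      have h3 : 0 ≤ (c (n + 1) - c n) * step ((s - c (n + 1)) / ε) := mul_nonneg hd h0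
      rcases le_total (c n + ε) s with h2 | h2
      · rw [TT_eq hε hm n h2]
        linarith [h' n]
      · rw [min_eq_left (by linarith)] at ih
        linarith

lemma TT_left {s : ℝ} (n : ℕ) (hs : ∀ j, s + ε ≤ c (j + 1)) : TT c ε n s = 0 ∧
    TT1 c ε n s = 0 ∧ TT2 c ε n s = 0 := by
  have hx : ∀ j, 1 ≤ |(s - c (j + 1)) / ε| := by
    intro j
    have h1 : (s - c (j + 1)) / ε ≤ -1 := by
      rw [div_le_iff₀ hε]
      linarith [hs j]
    rw [abs_of_nonpos (by linarith)]
    linarith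
  refine ⟨?_, ?_, ?_⟩
  · exact Finset.sum_eq_zero fun j _ => by rw [st0 hε (hs j), mul_zero]
  · exact Finset.sum_eq_zero fun j _ => by rw [beta_out (hx j)]; simp
  · exact Finset.sum_eq_zero fun j _ => by rw [beta1_out _ (hx j)]; simp

end bounds

lemma out_of_far {ε a s : ℝ} (hε : 0 < ε) (h : ε ≤ |s - a|) : 1 ≤ |(s - a) / ε| := by
  rw [abs_div, abs_of_pos hε, le_div_iff₀ hε]
  linarith

lemma TT_none {c : ℕ → ℝ} {ε : ℝ} (hε : 0 < ε) {n : ℕ} {s : ℝ}
    (h : ∀ j < n, ε ≤ |s - c (j + 1)|) : TT1 c ε n s = 0 ∧ TT2 c ε n s = 0 := by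
  constructor
  · exact Finset.sum_eq_zero fun j hj => by
      rw [beta_out (out_of_far hε (h j (Finset.mem_range.1 hj)))]; simp
  · exact Finset.sum_eq_zero fun j hj => by
      rw [beta1_out _ (out_of_far hε (h j (Finset.mem_range.1 hj)))]; simp

lemma TT_one {c : ℕ → ℝ} {ε : ℝ} (hε : 0 < ε) {n i : ℕ} {s : ℝ} (hi : i < n)
    (h : ∀ j < n, j ≠ i → ε ≤ |s - c (j + 1)|) :
    TT1 c ε n s = (c (i + 1) - c i) * (beta ((s - c (i + 1)) / ε) / II * (1 / ε)) ∧
    TT2 c ε n s = (c (i + 1) - c i) * (beta1 ((s - c (i + 1)) / ε) / II * (1 / ε) * (1 / ε)) := by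
  constructor
  · exact Finset.sum_eq_single i (fun j hj hji => by
      rw [beta_out (out_of_far hε (h j (Finset.mem_range.1 hj) hji))]; simp)
      (fun hn => absurd (Finset.mem_range.2 hi) hn)
  · exact Finset.sum_eq_single i (fun j hj hji => by
      rw [beta1_out _ (out_of_far hε (h j (Finset.mem_range.1 hj) hji))]; simp)
      (fun hn => absurd (Finset.mem_range.2 hi) hn)

/-! the ramp -/

def R2 (L a ρ : ℝ) (s : ℝ) : ℝ := L * step (2 * (s - a) / ρ - 1)

def R3 (L a ρ : ℝ) (s : ℝ) : ℝ := L * (beta (2 * (s - a) / ρ - 1) / II * (2 / ρ))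

def R1 (L a ρ : ℝ) (s : ℝ) : ℝ := ∫ t in a..s, R2 L a ρ t

lemma R2_hasDeriv (L a ρ s : ℝ) : HasDerivAt (R2 L a ρ) (R3 L a ρ s) s := by
  have h1 : HasDerivAt (fun s => 2 * (s - a) / ρ - 1) (2 / ρ) s := by
    have := ((((hasDerivAt_id s).sub_const a).const_mul 2).div_const ρ).sub_const 1
    simpa using this
  exact ((step_hasDeriv _).comp s h1).const_mul L

lemma R3_contDiff (L a ρ : ℝ) : ContDiff ℝ ∞ (R3 L a ρ) := by
  unfold R3
  have h1 : ContDiff ℝ ∞ (fun s : ℝ => 2 * (s - a) / ρ - 1) :=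
    ((contDiff_const.mul (contDiff_id.sub contDiff_const)).div_const ρ).sub contDiff_const
  exact contDiff_const.mul (((beta_contDiff.comp h1).div_const II).mul contDiff_const)

lemma R2_contDiff (L a ρ : ℝ) : ContDiff ℝ ∞ (R2 L a ρ) :=
  contDiff_of_hasDeriv (R2_hasDeriv L a ρ) (R3_contDiff L a ρ)

lemma int_hasDeriv {f : ℝ → ℝ} (hf : Continuous f) (a s : ℝ) :
    HasDerivAt (fun s => ∫ t in a..s, f t) (f s) s :=
  intervalIntegral.integral_hasDerivAt_right (hf.intervalIntegrable _ _)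
    (hf.stronglyMeasurableAtFilter _ _) hf.continuousAt

lemma R1_hasDeriv (L a ρ s : ℝ) : HasDerivAt (R1 L a ρ) (R2 L a ρ s) s :=
  int_hasDeriv (R2_contDiff L a ρ).continuous a s

lemma R1_contDiff (L a ρ : ℝ) : ContDiff ℝ ∞ (R1 L a ρ) :=
  contDiff_of_hasDeriv (R1_hasDeriv L a ρ) (R2_contDiff L a ρ)

section ramp

variable {L a ρ s : ℝ} (hL : 0 < L) (hρ : 0 < ρ)
include hL hρ

omit hL in
lemma R2_left (h : s ≤ a) : R2 L a ρ s = 0 := by
  unfold R2
  rw [step_left, mul_zero]
  have : 2 * (s - a) / ρ ≤ 0 := div_nonpos_of_nonpos_of_nonneg (by linarith) hρ.le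
  linarith

omit hL in
lemma R2_right (h : a + ρ ≤ s) : R2 L a ρ s = L := by
  unfold R2
  rw [step_right, mul_one]
  have : 2 ≤ 2 * (s - a) / ρ := by rw [le_div_iff₀ hρ]; linarith
  linarith

omit hρ in
lemma R2_nonneg : 0 ≤ R2 L a ρ s := mul_nonneg hL.le (step_nonneg _)

omit hρ in
lemma R2_le : R2 L a ρ s ≤ L := by
  have := step_le_one (2 * (s - a) / ρ - 1)
  unfold R2
  nlinarith

omit hL in
lemma R3_out (h : s ≤ a ∨ a + ρ ≤ s) : R3 L a ρ s = 0 := by
  unfold R3
  rw [beta_out]
  · simp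
  rcases h with h | h
  · have : 2 * (s - a) / ρ ≤ 0 := div_nonpos_of_nonpos_of_nonneg (by linarith) hρ.le
    rw [abs_of_nonpos (by linarith)]
    linarith
  · have : 2 ≤ 2 * (s - a) / ρ := by rw [le_div_iff₀ hρ]; linarith
    rw [abs_of_nonneg (by linarith)]
    linarith

omit hL in
lemma R1_left (h : s ≤ a) : R1 L a ρ s = 0 := by
  unfold R1
  rw [intervalIntegral.integral_symm, neg_eq_zero]
  apply intervalIntegral.integral_zero_ae
  refine Filter.Eventually.of_forall fun t ht => ?_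
  rw [uIoc_of_le h] at ht
  exact R2_left hρ ht.2

lemma R1_bounds (h : a ≤ s) : L * (s - a - ρ) ≤ R1 L a ρ s ∧ R1 L a ρ s ≤ L * (s - a) := by
  have hc := (R2_contDiff L a ρ).continuous
  constructor
  · rcases le_total (a + ρ) s with h1 | h1
    · have e : R1 L a ρ s = (∫ t in a..(a + ρ), R2 L a ρ t) + ∫ t in (a + ρ)..s, R2 L a ρ t :=
        (intervalIntegral.integral_add_adjacent_intervals (hc.intervalIntegrable _ _)
          (hc.intervalIntegrable _ _)).symm
      have h2 : 0 ≤ ∫ t in a..(a + ρ), R2 L a ρ t :=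
        intervalIntegral.integral_nonneg (by linarith) fun t _ => R2_nonneg hL
      have h3 : (∫ t in (a + ρ)..s, R2 L a ρ t) = ∫ t in (a + ρ)..s, L := by
        apply intervalIntegral.integral_congr
        intro t ht
        rw [uIcc_of_le h1] at ht
        exact R2_right hρ ht.1
      rw [h3, intervalIntegral.integral_const, smul_eq_mul] at e
      nlinarith
    · have h2 : 0 ≤ R1 L a ρ s := intervalIntegral.integral_nonneg h fun t _ => R2_nonneg hL
      nlinarith
  · have h2 : R1 L a ρ s ≤ ∫ t in a..s, L :=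
      intervalIntegral.integral_mono_on h (hc.intervalIntegrable _ _)
        (continuous_const.intervalIntegrable _ _) fun t _ => R2_le hL
    rw [intervalIntegral.integral_const, smul_eq_mul] at h2
    linarith

end ramp

/-- the odd function -/
theorem oneD : S_OneD := by
  intro L c0 S D hL hc0 hS hD η hη
  -- the mesh
  set h : ℝ := min (η / (4 * L)) (η / (4 * L * S)) with hh
  have hSpos : 0 < S := hc0.trans hS
  have hpos : 0 < h := lt_min (by positivity) (by positivity)
  have hL1 : 4 * L * h ≤ η := by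
    have : h ≤ η / (4 * L) := min_le_left _ _
    rw [le_div_iff₀ (by positivity)] at this
    linarith
  have hL2 : 4 * L * h * S ≤ η := by
    have : h ≤ η / (4 * L * S) := min_le_right _ _
    rw [le_div_iff₀ (by positivity)] at this
    linarith
  have hf : ∀ a : ℝ, ∃ b : ℝ, c0 ≤ a → b ∈ D ∧ a + h / 2 < b ∧ b < a + h := by
    intro a
    rcases le_or_gt c0 a with h1 | h1
    · obtain ⟨b, hb, hb1, hb2⟩ := hD (a + h / 2) (a + h) (by linarith) (by linarith)
      exact ⟨b, fun _ => ⟨hb, hb1, hb2⟩⟩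
    · exact ⟨0, fun h2 => absurd h2 (not_le.2 h1)⟩
  choose nxt hnxt using hf
  set c : ℕ → ℝ := fun n => Nat.rec c0 (fun _ x => nxt x) n with hc
  have c_zero : c 0 = c0 := rfl
  have c_succ : ∀ n, c (n + 1) = nxt (c n) := fun n => rfl
  have hge : ∀ n, c0 + n * (h / 2) ≤ c n := by
    intro n
    induction n with
    | zero => simp [c_zero]
    | succ n ih =>
      rw [c_succ]
      have h0 : (0 : ℝ) ≤ n * (h / 2) := by positivity
      have := (hnxt (c n) (by linarith)).2.1
      push_cast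
      linarith
  have hge0 : ∀ n, c0 ≤ c n := fun n => by
    have h0 : (0 : ℝ) ≤ n * (h / 2) := by positivity
    linarith [hge n]
  have hstep : ∀ n, c (n + 1) ∈ D ∧ c n + h / 2 < c (n + 1) ∧ c (n + 1) < c n + h := fun n =>
    hnxt (c n) (hge0 n)
  have hm : ∀ j, c j ≤ c (j + 1) := fun j => by linarith [(hstep j).2.1]
  have hmono : Monotone c := monotone_nat_of_le_succ hm
  obtain ⟨n, hn⟩ := exists_nat_gt (S / (h / 2))
  have hn2 : S ≤ c n := by
    have : S < n * (h / 2) := by
      rwa [div_lt_iff₀ (by positivity)] at hn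
    linarith [hge n]
  refine ⟨(Finset.range n).image fun j => c (j + 1), ?_, ?_⟩
  · intro x hx
    obtain ⟨j, -, rfl⟩ := Finset.mem_image.1 hx
    exact ⟨(hstep j).1, by linarith [(hstep j).2.1, hge0 j]⟩
  intro κ L1 Λ r hκ hL1' hΛ hr
  obtain ⟨b0, hb0, hb0'⟩ := beta_half
  obtain ⟨b1, hb1, hb1'⟩ := step_mid (θ := min (κ / L) 1) (by positivity)
  have hI := II_pos
  -- the widths
  obtain ⟨ε, hε, e1, e2, e3, e4⟩ : ∃ ε : ℝ, 0 < ε ∧ ε ≤ h / 8 ∧ ε ≤ r ∧ ε ≤ κ / Λ ∧
      ε ≤ L * (h / 2) * b0 / (II * (L + L1)) := by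
    refine ⟨min (min (h / 8) r) (min (κ / Λ) (L * (h / 2) * b0 / (II * (L + L1)))), ?_, ?_, ?_, ?_,
      ?_⟩
    · exact lt_min (lt_min (by positivity) hr) (lt_min (by positivity) (by positivity))
    · exact (min_le_left _ _).trans (min_le_left _ _)
    · exact (min_le_left _ _).trans (min_le_right _ _)
    · exact (min_le_right _ _).trans (min_le_left _ _)
    · exact (min_le_right _ _).trans (min_le_right _ _)
  obtain ⟨ρ, hρ, r1, r2, r3⟩ : ∃ ρ : ℝ, 0 < ρ ∧ ρ ≤ h / 8 ∧ ρ ≤ r ∧
      ρ ≤ 2 * L * b1 / (II * Λ) := by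
    refine ⟨min (min (h / 8) r) (2 * L * b1 / (II * Λ)), ?_, ?_, ?_, ?_⟩
    · exact lt_min (lt_min (by positivity) hr) (by positivity)
    · exact (min_le_left _ _).trans (min_le_left _ _)
    · exact (min_le_left _ _).trans (min_le_right _ _)
    · exact min_le_right _ _
  rw [le_div_iff₀ hΛ] at e3
  rw [le_div_iff₀ (by positivity)] at e4 r3
  set g1 : ℝ → ℝ := fun s => R1 L c0 ρ s - L * TT c ε n s with hg1
  set g2 : ℝ → ℝ := fun s => R2 L c0 ρ s - L * TT1 c ε n s with hg2
  set g3 : ℝ → ℝ := fun s => R3 L c0 ρ s - L * TT2 c ε n s with hg3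
  set g0 : ℝ → ℝ := fun s => ∫ t in c0..s, g1 t with hg0
  have d1 : ∀ s, HasDerivAt g1 (g2 s) s := fun s =>
    (R1_hasDeriv L c0 ρ s).sub ((TT_hasDeriv c ε n s).const_mul L)
  have d2 : ∀ s, HasDerivAt g2 (g3 s) s := fun s =>
    (R2_hasDeriv L c0 ρ s).sub ((TT1_hasDeriv c ε n s).const_mul L)
  have s1 : ContDiff ℝ ∞ g1 := (R1_contDiff L c0 ρ).sub (contDiff_const.mul (TT_contDiff c ε n))
  have d0 : ∀ s, HasDerivAt g0 (g1 s) s := fun s => int_hasDeriv s1.continuous c0 s
  have s0 : ContDiff ℝ ∞ g0 := contDiff_of_hasDeriv d0 s1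
  have hleft : ∀ s, s ≤ c0 → ∀ j, s + ε ≤ c (j + 1) := fun s hs j => by
    have := (hstep j).2.1
    have := hge0 j
    linarith
  have l1 : ∀ s, s ≤ c0 → g1 s = 0 := fun s hs => by
    simp only [hg1]
    rw [R1_left hρ hs, (TT_left hε hm n (hleft s hs)).1]; ring
  have l2 : ∀ s, s ≤ c0 → g2 s = 0 := fun s hs => by
    simp only [hg2]
    rw [R2_left hρ hs, (TT_left hε hm n (hleft s hs)).2.1]; ring
  have l3 : ∀ s, s ≤ c0 → g3 s = 0 := fun s hs => by
    simp only [hg3]
    rw [R3_out hρ (Or.inl hs), (TT_left hε hm n (hleft s hs)).2.2]; ring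
  have l0 : ∀ s, s ≤ c0 → g0 s = 0 := fun s hs => by
    simp only [hg0]
    rw [intervalIntegral.integral_symm, neg_eq_zero]
    apply intervalIntegral.integral_zero_ae
    refine Filter.Eventually.of_forall fun t ht => ?_
    rw [uIoc_of_le hs] at ht
    exact l1 t ht.2
  -- smallness
  have b1s : ∀ s, s ≤ S → |g1 s| ≤ 2 * L * h := by
    intro s hsS
    rcases le_total s c0 with hs | hs
    · rw [l1 s hs, abs_zero]; positivity
    · obtain ⟨u1, u2⟩ := R1_bounds hL hρ (s := s) hs
      have u3 := (TT_upper hε hm (s := s) hs n).1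
      have u4 := TT_lower (s := s) (η := h) hε hm hpos.le (fun j => (hstep j).2.2.le) n
      rw [min_eq_left (by linarith)] at u4
      rw [c_zero] at u3 u4
      have u5 := mul_le_mul_of_nonneg_left u3 hL.le
      have u6 := mul_le_mul_of_nonneg_left u4 hL.le
      have w1 : L * ρ ≤ L * (h / 8) := mul_le_mul_of_nonneg_left r1 hL.le
      have w2 : L * ε ≤ L * (h / 8) := mul_le_mul_of_nonneg_left e1 hL.le
      have w3 : 0 < L * h := by positivity
      simp only [hg1]
      rw [abs_le]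
      constructor <;> linarith
  have b0s : ∀ s, s ≤ S → |g0 s| ≤ 2 * L * h * S := by
    intro s hsS
    rcases le_total s c0 with hs | hs
    · rw [l0 s hs, abs_zero]; positivity
    · have := intervalIntegral.norm_integral_le_of_norm_le_const (a := c0) (b := s) (f := g1)
        (C := 2 * L * h) (fun t ht => by
          rw [uIoc_of_le hs] at ht
          rw [Real.norm_eq_abs]
          exact b1s t (by linarith [ht.2]))
      rw [Real.norm_eq_abs, abs_of_nonneg (by linarith : 0 ≤ s - c0)] at this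
      have w : 2 * L * h * (s - c0) ≤ 2 * L * h * S :=
        mul_le_mul_of_nonneg_left (by linarith) (by positivity)
      simp only [hg0]
      linarith
  -- the case analysis
  have cases : ∀ s, c0 ≤ s → s ≤ S →
      (L - κ ≤ g2 s ∧ g2 s ≤ L) ∨ (s ≤ c0 + r ∧ 0 ≤ g2 s ∧ g2 s ≤ κ) ∨
      ((∃ x ∈ (Finset.range n).image fun j => c (j + 1), |s - x| ≤ r) ∧ g2 s ≤ -L1) ∨
      (-L1 ≤ g2 s ∧ g2 s ≤ L ∧ Λ ≤ |g3 s| ∧
        (0 ≤ g2 s ∨ ∃ x ∈ (Finset.range n).image fun j => c (j + 1), |s - x| ≤ r)) := by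
    intro s hs hsS
    by_cases hex : ∃ i < n, |s - c (i + 1)| < ε
    · obtain ⟨i, hi, his⟩ := hex
      have hfar : ∀ j < n, j ≠ i → ε ≤ |s - c (j + 1)| := by
        intro j _ hji
        have hgap : h / 2 ≤ |c (j + 1) - c (i + 1)| := by
          rcases lt_or_gt_of_ne hji with hlt | hlt
          · have h1 := hmono (show j + 1 ≤ i by omega)
            have h2 := (hstep i).2.1
            rw [abs_of_nonpos (by linarith)]
            linarith
          · have h1 := hmono (show i + 1 ≤ j by omega)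
            have h2 := (hstep j).2.1
            rw [abs_of_nonneg (by linarith)]
            linarith
        have h3 : |c (j + 1) - c (i + 1)| ≤ |s - c (j + 1)| + |s - c (i + 1)| := by
          have := abs_sub (s - c (i + 1)) (s - c (j + 1))
          have e : s - c (i + 1) - (s - c (j + 1)) = c (j + 1) - c (i + 1) := by ring
          rw [e] at this
          linarith
        linarith
      obtain ⟨t1, t2⟩ := TT_one hε hi hfar
      have habs := abs_lt.1 his
      have hr0 : c0 + ρ ≤ s := by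
        have := (hstep i).2.1
        have := hge0 i
        linarith [habs.1]
      have v2 : g2 s = L - L * ((c (i + 1) - c i) *
          (beta ((s - c (i + 1)) / ε) / II * (1 / ε))) := by
        simp only [hg2]; rw [t1, R2_right hρ hr0]
      have v3 : g3 s = -(L * ((c (i + 1) - c i) *
          (beta1 ((s - c (i + 1)) / ε) / II * (1 / ε) * (1 / ε)))) := by
        simp only [hg3]; rw [t2, R3_out hρ (Or.inr hr0)]; ring
      have hmem : ∃ x ∈ (Finset.range n).image fun j => c (j + 1), |s - x| ≤ r :=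
        ⟨c (i + 1), Finset.mem_image.2 ⟨i, Finset.mem_range.2 hi, rfl⟩, by linarith⟩
      set x : ℝ := (s - c (i + 1)) / ε with hx
      set B : ℝ := L * ((c (i + 1) - c i) * (beta x / II * (1 / ε))) with hB
      have hd : 0 < c (i + 1) - c i := by linarith [(hstep i).2.1]
      have hd' : h / 2 ≤ c (i + 1) - c i := by linarith [(hstep i).2.1]
      have hB0 : 0 ≤ B := by
        have := beta_nonneg x
        positivity
      rcases le_or_gt B κ with hBκ | hBκ
      · exact Or.inl ⟨by linarith, by linarith⟩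
      rcases le_or_gt (L + L1) B with hBL | hBL
      · exact Or.inr (Or.inr (Or.inl ⟨hmem, by linarith⟩))
      refine Or.inr (Or.inr (Or.inr ⟨by linarith, by linarith, ?_, Or.inr hmem⟩))
      have hx2 : 1 / 2 ≤ |x| := by
        by_contra hx3
        have hbx := hb0' x (not_le.1 hx3).le
        have h4 : L * (h / 2) * b0 ≤ L * (c (i + 1) - c i) * beta x := by
          apply mul_le_mul (mul_le_mul_of_nonneg_left hd' hL.le) hbx hb0.le (by positivity)
        have h5 : B * (II * ε) = L * (c (i + 1) - c i) * beta x := by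
          rw [hB]; field_simp
        have h6 : (L + L1) * (II * ε) ≤ B * (II * ε) := by
          rw [h5]; linarith
        have h7 : L + L1 ≤ B := le_of_mul_le_mul_right h6 (by positivity)
        linarith
      have h8 := beta1_ge hx2
      rw [v3, abs_neg, abs_mul, abs_of_pos hL, abs_mul, abs_of_pos hd, abs_mul, abs_mul, abs_div,
        abs_of_pos hI, abs_of_pos (show 0 < 1 / ε by positivity)]
      have h9 : B * (1 / ε) ≤ L * ((c (i + 1) - c i) * (|beta1 x| / II * (1 / ε) * (1 / ε))) := by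
        have : B * (1 / ε) = L * ((c (i + 1) - c i) * (beta x / II * (1 / ε) * (1 / ε))) := by
          rw [hB]; ring
        rw [this]
        gcongr
      have h10 : Λ ≤ B * (1 / ε) := by
        rw [mul_one_div, le_div_iff₀ hε]
        linarith
      linarith
    · push Not at hex
      obtain ⟨t1, t2⟩ := TT_none (c := c) hε hex
      have v2 : g2 s = R2 L c0 ρ s := by simp only [hg2]; rw [t1]; ring
      have v3 : g3 s = R3 L c0 ρ s := by simp only [hg3]; rw [t2]; ring
      have hn0 : 0 ≤ R2 L c0 ρ s := R2_nonneg hL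
      have hle : R2 L c0 ρ s ≤ L := R2_le hL
      rw [v2, v3]
      rcases le_or_gt (L - κ) (R2 L c0 ρ s) with h1 | h1
      · exact Or.inl ⟨h1, hle⟩
      have hsr : s < c0 + ρ := by
        by_contra h2
        rw [R2_right hρ (not_lt.1 h2)] at h1
        linarith
      rcases le_or_gt (R2 L c0 ρ s) κ with h2 | h2
      · exact Or.inr (Or.inl ⟨by linarith, hn0, h2⟩)
      refine Or.inr (Or.inr (Or.inr ⟨by linarith, hle, ?_, Or.inl hn0⟩))
      -- transition
      have hst : R2 L c0 ρ s = L * step (2 * (s - c0) / ρ - 1) := rfl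
      have hκL : κ / L ≤ step (2 * (s - c0) / ρ - 1) := by
        rw [div_le_iff₀ hL]; rw [hst] at h2; linarith
      have hκL' : step (2 * (s - c0) / ρ - 1) ≤ 1 - κ / L := by
        rw [hst] at h1
        have : κ / L * L = κ := by field_simp
        nlinarith
      have hmin : min (κ / L) 1 ≤ κ / L := min_le_left _ _
      have hb := hb1' _ (hmin.trans hκL) (by linarith)
      have hval : |R3 L c0 ρ s| = R3 L c0 ρ s := by
        apply abs_of_nonneg
        unfold R3
        have := beta_nonneg (2 * (s - c0) / ρ - 1)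
        positivity
      rw [hval]
      unfold R3
      have h5 : L * (b1 / II * (2 / ρ)) ≤ L * (beta (2 * (s - c0) / ρ - 1) / II * (2 / ρ)) := by
        gcongr
      have h6 : Λ ≤ L * (b1 / II * (2 / ρ)) := by
        have e : L * (b1 / II * (2 / ρ)) = 2 * L * b1 / (II * ρ) := by field_simp
        rw [e, le_div_iff₀ (by positivity)]
        linarith
      linarith
  refine ⟨fun s => g0 s - g0 (-s), fun s => g1 s + g1 (-s), fun s => g2 s - g2 (-s),
    fun s => g3 s + g3 (-s), s0.sub (s0.comp contDiff_neg), ?_, ?_, ?_, ?_, ?_, ?_, ?_⟩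
  · intro s
    have := (d0 s).sub ((d0 (-s)).comp s (hasDerivAt_neg s))
    refine this.congr_deriv ?_
    ring
  · intro s
    have := (d1 s).add ((d1 (-s)).comp s (hasDerivAt_neg s))
    refine this.congr_deriv ?_
    ring
  · intro s
    have := (d2 s).sub ((d2 (-s)).comp s (hasDerivAt_neg s))
    refine this.congr_deriv ?_
    ring
  · intro s
    simp only [neg_neg]
    ring
  · intro s hs
    have := abs_le.1 hs
    show g0 s - g0 (-s) = 0
    rw [l0 s this.2, l0 (-s) (by linarith)]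
    ring
  · intro s hs
    have h1 := abs_le.1 hs
    have k0 := b0s s h1.2
    have k0' := b0s (-s) (by linarith)
    have k1 := b1s s h1.2
    have k1' := b1s (-s) (by linarith)
    constructor
    · have := abs_sub (g0 s) (g0 (-s))
      linarith
    · have := abs_add_le (g1 s) (g1 (-s))
      linarith
  · intro s hs hsS
    simp only
    rw [l2 (-s) (by linarith), l3 (-s) (by linarith), sub_zero, add_zero]
    exact cases s hs hsS

end

end Pool.Agent.H81.HB
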